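import Pool.Agent.X235.Alg.Incomp

set_option autoImplicit false

/-!
Two classes of c.e. algebras with incomparable isomorphism relations: the 1-generated sets with an
action of the group of the integers, and the 1-generated sets with an action of the Pruefer 2-group.
-/

namespace Pool.Agent.Results.MP_418eb4_lc.IntegersAndPruefer

open Pool.Agent.X235.Alg

/-- There are two varieties with computable sets of laws (in the signature of the unary symbols
`f_0, f_1, ...`) such that the isomorphism relations of their 1-generated c.e. presented members are
incomparable under computable reducibility. -/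
theorem result : ∃ L L' : Set (Term ℕ × Term ℕ),
    ComputablePred (fun p : Term ℕ × Term ℕ => p ∈ L) ∧
    ComputablePred (fun p : Term ℕ × Term ℕ => p ∈ L') ∧
    ¬ CRed (IsoRel L 1) (IsoRel L' 1) ∧ ¬ CRed (IsoRel L' 1) (IsoRel L 1) :=
  ⟨LZ, LP, re_LZ, re_LP, not_red_ZP, not_red_PZ⟩

end Pool.Agent.Results.MP_418eb4_lc.IntegersAndPruefer
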